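import Pool.Agent.NUO.Obj
import Pool.Agent.NUP.MF.Strip
import Pool.Agent.NUMFC.Pre

/-!
# Bridge: the row factor on the curve `A'`

`u = l + i z`, `z = t + i η(t)`:
* `line_pt`: `vl (l - η) t = l + i (t + i η)`;
* `RN_line`: `RN m (l + i z) = 2 cos l · exp (m Re vc z)` for `|Im z| < l`;
* `act_cos`: `2 cos l / (2 π) = act`.
-/

set_option autoImplicit false

noncomputable section

open Complex

namespace NUBR

open NUP1 (vl)
open NUO (RN)

lemma l_eq : NUP1.l = NUMF.l := rfl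

/-- `vl (l - η) t = l + i (t + i η)` -/
theorem line_pt (η t : ℝ) : vl (NUP1.l - η) t = NUP1.l + I * ((t : ℂ) + (η : ℂ) * I) := by
  unfold vl
  push_cast
  linear_combination (-(η : ℂ)) * Complex.I_sq

lemma cos2l : Complex.cos (2 * (NUP1.l : ℂ)) = (NUMF.r : ℂ) := by
  have h1 : (2 * (NUP1.l : ℂ)) = ((Real.pi / 4 : ℝ) : ℂ) := by
    unfold NUP1.l; push_cast; ring
  rw [h1, ← Complex.ofReal_cos, NUMF.r_eq]

/-- `sin (u + 3 l) = cosh z` -/
theorem sin3 (z : ℂ) : sin (NUP1.l + I * z + 3 * NUP1.l) = cosh z := by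
  have h1 : (NUP1.l : ℂ) + I * z + 3 * NUP1.l = z * I + (Real.pi : ℂ) / 2 := by
    unfold NUP1.l; push_cast; ring
  rw [h1, Complex.sin_add_pi_div_two, Complex.cos_mul_I]

/-- `sin u sin (u - 2 l) = - (cosh 2z - cos 2l) / 2` -/
theorem sin_sin (z : ℂ) : sin (NUP1.l + I * z) * sin (NUP1.l + I * z - 2 * NUP1.l) =
    -((cosh (2 * z) - NUMF.r) / 2) := by
  have h1 : (NUP1.l : ℂ) + I * z - 2 * NUP1.l = I * z - NUP1.l := by ring
  have h2 : cosh (2 * z) = Complex.cos (2 * (I * z)) := by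
    rw [show 2 * (I * z) = (2 * z) * I by ring, Complex.cos_mul_I]
  rw [h1, h2, ← cos2l, Complex.sin_add, Complex.sin_sub, Complex.cos_two_mul, Complex.cos_two_mul]
  have h3 := Complex.sin_sq_add_cos_sq (NUP1.l : ℂ)
  have h4 := Complex.sin_sq_add_cos_sq (I * z)
  linear_combination (-(Complex.cos (I * z)) ^ 2) * h3 + (Complex.cos (NUP1.l : ℂ)) ^ 2 * h4

lemma cosh_sq' (z : ℂ) : cosh z ^ 2 = (cosh (2 * z) + 1) / 2 := by
  rw [Complex.cosh_two_mul]
  have := Complex.cosh_sq z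
  linear_combination (1 / 2 : ℂ) * this

/-- **the row factor on the curve** -/
theorem RN_line (m : ℕ) {z : ℂ} (hz : |z.im| < NUMF.l) :
    RN m (NUP1.l + I * z) = 2 * Real.cos NUP1.l * Real.exp (m * (NUMF.vc z).re) := by
  obtain ⟨s1, s2⟩ := NUMF.slit_v hz
  have n1 : cosh (2 * z) + 1 ≠ 0 := Complex.slitPlane_ne_zero s1
  have n2 : cosh (2 * z) - NUMF.r ≠ 0 := Complex.slitPlane_ne_zero s2
  have p1 := norm_pos_iff.2 n1
  have p2 := norm_pos_iff.2 n2
  unfold RN
  congr 1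
  rw [Real.exp_nat_mul]
  congr 1
  unfold NUMF.vc
  rw [Complex.sub_re, Complex.log_re, Complex.log_re, Real.exp_sub, Real.exp_log p1,
    Real.exp_log p2, ← norm_mul, sin_sin, sin3, ← norm_pow, cosh_sq', norm_neg, norm_div, norm_div]
  have h2 : ‖(2 : ℂ)‖ = 2 := by simp
  rw [h2]
  field_simp

/-- the activity: `2 cos l / (2 π) = act` -/
theorem act_cos : (2 * Real.pi)⁻¹ * (2 * Real.cos NUP1.l) = NUMFC.act := by
  have hs := NUMFC.sq2_pos
  have hlt := NUMFC.sq2_lt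
  have h0 : 0 < 2 - √2 := by linarith
  have hc : Real.cos NUP1.l = √(2 + √2) / 2 := by
    have := Real.cos_pi_div_eight
    unfold NUP1.l
    exact this
  have h1 : √(2 + √2) * √(2 - √2) = √2 := by
    rw [← Real.sqrt_mul (by positivity)]
    congr 1
    have := NUMFC.sq2
    nlinarith
  have h2 := Real.sqrt_pos.2 h0
  unfold NUMFC.act
  rw [hc]
  have hp := Real.pi_pos
  rw [show √2 / (2 * Real.pi * √(2 - √2)) = (√(2 + √2) * √(2 - √2)) / (2 * Real.pi * √(2 - √2)) by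
    rw [h1]]
  field_simp

/-- one body factor of a quantum on the curve without objects and cutoff -/
theorem RN_act (m : ℕ) {η : ℝ → ℝ} {t : ℝ} (h : |η t| < NUMF.l) :
    (2 * Real.pi)⁻¹ * RN m (vl (NUP1.l - η t) t) =
      NUMFC.act * Real.exp (m * (NUMF.vc ((t : ℂ) + (η t : ℂ) * I)).re) := by
  rw [line_pt, RN_line m (by simpa using h), ← mul_assoc, act_cos]

end NUBR

end
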