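import Pool.Agent.NUO.Glue
import Pool.Agent.NUBR.RN

/-!
# Bridge: the positive gas `NUO.Z1` without activities

`aA m β P η O s t = exp (m Re vc ζ) ‖ph‖ ∏ potN`, `ζ = t + i η(t)`: one body factor of a quantum of
species `s` on the curve without its activity; `Z1_eq`: `Z1 = act ^ (a + b) / (a! b!) ∫ WO`.
-/

set_option autoImplicit false

noncomputable section

open MeasureTheory Finset
open scoped ENNReal

namespace NUBR

open NUO NU42

/-- one body factor on the curve, without the activity -/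
def aA (m : ℕ) (β : ℝ) (P : Par) (η : ℝ → ℝ) {r : ℕ} (O : Fin r → Xo) (s : Bool) (t : ℝ) : ℝ :=
  Real.exp (m * (NUMF.vc ((t : ℂ) + dA η t)).re) * ‖ph m β (pA η t)‖ * ∏ i, potN P O i s (pA η t)

theorem aA_nonneg (m : ℕ) (β : ℝ) (P : Par) (η : ℝ → ℝ) {r : ℕ} (O : Fin r → Xo) (s : Bool) (t : ℝ) :
    0 ≤ aA m β P η O s t := by
  unfold aA
  have h : 0 ≤ ∏ i, potN P O i s (pA η t) := Finset.prod_nonneg fun i _ => potN_nonneg _ _ _ _ _
  positivity

theorem l_pos' : 0 < NUMF.l := by unfold NUMF.l; positivity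

theorem qA_eq {m : ℕ} {β : ℝ} {P : Par} {η : ℝ → ℝ} (h0 : ∀ t, |η t| < NUMF.l) {r : ℕ}
    (O : Fin r → Xo) (s : Bool) (t : ℝ) :
    qA m β P η O s t = NUMFC.act * aA m β P η O s t := by
  unfold qA aA pA dA
  have h := RN_act m (h0 t)
  rw [← mul_assoc, h]
  ring

theorem Good.abs_lt {P : Par} {η η' : ℝ → ℝ} (h : Good P η η') (t : ℝ) : |η t| < NUMF.l := by
  rw [abs_of_nonneg (h.h0 t)]
  have h1 := h.h1 t
  have h2 := l_pos'
  have h3 : NUP1.l = NUMF.l := rfl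
  rw [h3] at h1
  linarith

/-- constants in the one body factors -/
theorem ob_smul {p : ℕ} (D1 : ℝ → ℂ) (c : ℝ) (a : ℝ → ℝ) (t : Fin p → ℝ) :
    NU42.ob D1 (fun x => c * a x) t = c ^ p * NU42.ob D1 a t := by
  unfold NU42.ob
  have h : ∀ i : Fin p, ‖1 + D1 (t i)‖ * (c * a (t i)) = c * (‖1 + D1 (t i)‖ * a (t i)) :=
    fun i => by ring
  simp_rw [h]
  rw [Finset.prod_mul_distrib, Finset.prod_const, Finset.card_univ, Fintype.card_fin]

theorem WO_smul {p n : ℕ} (DX DX1 DY DY1 : ℝ → ℂ) (c : ℝ) (a a' : ℝ → ℝ) (t : Fin p → ℝ)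
    (t' : Fin n → ℝ) :
    WO DX DX1 DY DY1 (fun x => c * a x) (fun x => c * a' x) t t' =
      c ^ (p + n) * WO DX DX1 DY DY1 a a' t t' := by
  unfold WO
  rw [ob_smul, ob_smul, pow_add]
  ring

/-- **the gas on the curve, activities separated** -/
theorem Z1_eq {m : ℕ} {β : ℝ} {P : Par} {η η' : ℝ → ℝ} (h0 : ∀ t, |η t| < NUMF.l) {r : ℕ}
    (O : Fin r → Xo) (a b : ℕ) :
    Z1 m β P η η' O a b = ENNReal.ofReal (NUMFC.act ^ (a + b)) *
      (((a.factorial : ℝ≥0∞) * b.factorial)⁻¹ * ∫⁻ x : (Fin a → ℝ) × (Fin b → ℝ),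
        ENNReal.ofReal (WO (dA η) (dA η') (dA η) (dA η') (aA m β P η O true)
          (aA m β P η O false) x.1 x.2)) := by
  have e1 : (qA m β P η O true) = fun t => NUMFC.act * aA m β P η O true t :=
    funext fun t => qA_eq h0 O true t
  have e2 : (qA m β P η O false) = fun t => NUMFC.act * aA m β P η O false t :=
    funext fun t => qA_eq h0 O false t
  have hact : 0 ≤ NUMFC.act ^ (a + b) := pow_nonneg NUMFC.act_pos.le _
  unfold Z1
  rw [e1, e2]
  simp_rw [WO_smul, ENNReal.ofReal_mul hact]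
  rw [lintegral_const_mul' _ _ ENNReal.ofReal_ne_top]
  ring

/-- monotonicity of `WO` in the one body factors -/
theorem ob_mono {p : ℕ} (D1 : ℝ → ℂ) {a b : ℝ → ℝ} (ha : ∀ t, 0 ≤ a t) (hab : ∀ t, a t ≤ b t)
    (t : Fin p → ℝ) : NU42.ob D1 a t ≤ NU42.ob D1 b t := by
  unfold NU42.ob
  refine Finset.prod_le_prod (fun i _ => mul_nonneg (norm_nonneg _) (ha _)) fun i _ => ?_
  exact mul_le_mul_of_nonneg_left (hab _) (norm_nonneg _)

theorem WO_mono {p n : ℕ} (DX DX1 DY DY1 : ℝ → ℂ) {a a' b b' : ℝ → ℝ} (ha : ∀ t, 0 ≤ a t)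
    (ha' : ∀ t, 0 ≤ a' t) (hab : ∀ t, a t ≤ b t) (hab' : ∀ t, a' t ≤ b' t) (t : Fin p → ℝ)
    (t' : Fin n → ℝ) : WO DX DX1 DY DY1 a a' t t' ≤ WO DX DX1 DY DY1 b b' t t' := by
  unfold WO
  refine mul_le_mul_of_nonneg_left ?_ (mul_nonneg (mul_nonneg (ow_nonneg _ _) (ow_nonneg _ _))
    (cr_nonneg _ _ _ _))
  exact mul_le_mul (ob_mono _ ha hab t) (ob_mono _ ha' hab' t') (ob_nonneg _ ha' _)
    (ob_nonneg _ (fun t => (ha t).trans (hab t)) _)

/-- **the final form**: a bound of the gas without activities gives the bound of `Z1` -/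
theorem Z1_le {m : ℕ} {β : ℝ} {P : Par} {η η' : ℝ → ℝ} (h0 : ∀ t, |η t| < NUMF.l) {r : ℕ}
    (O : Fin r → Xo) (a b : ℕ) {s X : ℝ}
    (h : ∫⁻ x : (Fin a → ℝ) × (Fin b → ℝ), ENNReal.ofReal (WO (dA η) (dA η') (dA η) (dA η')
        (aA m β P η O true) (aA m β P η O false) x.1 x.2) ≤
      ENNReal.ofReal ((a.factorial : ℝ) * b.factorial * Real.exp (NUMFC.MFs s a b + X))) :
    Z1 m β P η η' O a b ≤ ENNReal.ofReal (Real.exp (NUMFC.MF s + X)) := by
  rw [Z1_eq h0]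
  have hf : (0 : ℝ) < (a.factorial : ℝ) * b.factorial := by positivity
  have e1 : ((a.factorial : ℝ≥0∞) * b.factorial)⁻¹ =
      ENNReal.ofReal (((a.factorial : ℝ) * b.factorial)⁻¹) := by
    rw [ENNReal.ofReal_inv_of_pos hf, ENNReal.ofReal_mul (by positivity), ENNReal.ofReal_natCast,
      ENNReal.ofReal_natCast]
  calc _ ≤ ENNReal.ofReal (NUMFC.act ^ (a + b)) * (((a.factorial : ℝ≥0∞) * b.factorial)⁻¹ *
        ENNReal.ofReal ((a.factorial : ℝ) * b.factorial * Real.exp (NUMFC.MFs s a b + X))) := by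
        gcongr
    _ = ENNReal.ofReal (Real.exp (NUMFC.MF s + X)) := by
        rw [e1, ← ENNReal.ofReal_mul (by positivity),
          ← ENNReal.ofReal_mul (pow_nonneg NUMFC.act_pos.le _)]
        congr 1
        rw [Real.exp_add, Real.exp_add, ← NUMFC.act_MFs s a b]
        field_simp

end NUBR

end
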