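import Pool.Agent.NUCR.DefB
import Pool.Agent.NUBR.Z1
import Pool.Agent.NUP1S.Lg

/-!
# Bridge for a general row factor

* `lgA_vc`: `lgA (l + i z) = vc z` for `|Im z| < l`;
* `RNB_line`: `RNB s tc (l + i z) = 2 cos l · exp (Re (s vc z))`, `RNr_line`;
* `qAg_eq`, `Z1g_eq`, `Z1g_le`: activities separated, for every row factor
  `R (pA η t) = 2 cos l · exp (F t)`; `Z1B_eq`, `Z1B_le` for `RNB s tc`.
-/

set_option autoImplicit false

noncomputable section

open MeasureTheory Finset Complex Set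
open scoped ENNReal

namespace NUBR

open NUO NU42 NUCR

/-! ### the logarithm on the curve -/

lemma Fr_line (z : ℂ) : Fr (NUP1.l + I * z) = (cosh (2 * z) + 1) / (cosh (2 * z) - NUMF.r) := by
  have h1 := sin_sin z
  have h2 := sin3 z
  have e : (NUMF.l : ℂ) = (NUP1.l : ℂ) := rfl
  unfold Fr
  rw [e, h2, h1, cosh_sq']
  rw [neg_div_neg_eq, div_div_div_cancel_right₀ (by norm_num)]

lemma ls_real {x : ℝ} (h0 : 0 < x) (h1 : x < Real.pi) :
    ls (x : ℂ) = ((Real.log (Real.sin x) : ℝ) : ℂ) := by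
  unfold ls
  rw [← Complex.ofReal_sin, ← Complex.ofReal_log (Real.sin_pos_of_pos_of_lt_pi h0 h1).le]

lemma strip_conv : Convex ℝ {z : ℂ | |z.im| < NUMF.l} := by
  have h : {z : ℂ | |z.im| < NUMF.l} = Complex.imLm ⁻¹' Ioo (-NUMF.l) NUMF.l := by
    ext z
    simp [abs_lt]
  rw [h]
  exact (convex_Ioo _ _).linear_preimage _

lemma strip_open' : IsOpen {z : ℂ | |z.im| < NUMF.l} :=
  isOpen_lt (continuous_abs.comp Complex.continuous_im) continuous_const

lemma reA (z : ℂ) : ((NUP1.l : ℂ) + I * z).re = NUP1.l - z.im := by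
  simp [sub_eq_add_neg]

/-- **the logarithm of the row factor on the curve is `vc`** -/
theorem lgA_vc {z : ℂ} (hz : |z.im| < NUMF.l) : lgA (NUP1.l + I * z) = NUMF.vc z := by
  have hl := l_pos'
  have hl1 : NUP1.l = NUMF.l := rfl
  have hpi : 8 * NUMF.l = Real.pi := by unfold NUMF.l; ring
  set D : ℂ → ℂ := fun z => lgA (NUP1.l + I * z) - NUMF.vc z with hD
  have hre : ∀ w : ℂ, |w.im| < NUMF.l → 0 < ((NUP1.l : ℂ) + I * w).re ∧
      ((NUP1.l : ℂ) + I * w).re < 2 * NUP1.l := by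
    intro w hw
    rw [abs_lt] at hw
    rw [reA, hl1]
    constructor <;> linarith [hw.1, hw.2]
  have hexp : ∀ w : ℂ, |w.im| < NUMF.l → Complex.exp (D w) = 1 := by
    intro w hw
    obtain ⟨s1, s2⟩ := NUMF.slit_v hw
    have n1 : cosh (2 * w) + 1 ≠ 0 := Complex.slitPlane_ne_zero s1
    have n2 : cosh (2 * w) - NUMF.r ≠ 0 := Complex.slitPlane_ne_zero s2
    rw [hD]
    simp only
    rw [Complex.exp_sub, exp_lgA (hre w hw).1 (hre w hw).2, Fr_line]
    unfold NUMF.vc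
    rw [Complex.exp_sub, Complex.exp_log n1, Complex.exp_log n2]
    exact div_self (div_ne_zero n1 n2)
  have hdiff : ∀ w : ℂ, |w.im| < NUMF.l → DifferentiableAt ℂ D w := by
    intro w hw
    have d1 : DifferentiableAt ℂ lgA ((NUP1.l : ℂ) + I * w) :=
      NUP1S.lgA_diff (hre w hw).1 (hre w hw).2
    have d2 : DifferentiableAt ℂ (fun z : ℂ => lgA (NUP1.l + I * z)) w :=
      DifferentiableAt.comp (g := lgA) w d1 (by fun_prop)
    exact d2.sub (NUMF.vc_diff hw)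
  have hder : ∀ w : ℂ, |w.im| < NUMF.l → deriv D w = 0 := by
    intro w hw
    have h1 := (hdiff w hw).hasDerivAt.cexp
    have h2 : (fun z => Complex.exp (D z)) =ᶠ[nhds w] fun _ => (1 : ℂ) := by
      filter_upwards [strip_open'.mem_nhds hw] with y hy
      exact hexp y hy
    have h3 : HasDerivAt (fun z => Complex.exp (D z)) 0 w :=
      (hasDerivAt_const w (1 : ℂ)).congr_of_eventuallyEq h2
    have h4 := h1.unique h3
    rw [hexp w hw, one_mul] at h4
    exact h4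
  have hz0 : |(0 : ℂ).im| < NUMF.l := by simpa using hl
  have hc : D z = D 0 := strip_open'.is_const_of_deriv_eq_zero strip_conv.isPreconnected
    (fun w hw => (hdiff w hw).differentiableWithinAt) (fun w hw => hder w hw) hz hz0
  have hr1 := NUMF.r_lt_one
  have h0 : D 0 = ((2 * Real.log (Real.sin (4 * NUMF.l)) - Real.log (Real.sin NUMF.l) -
      Real.log (Real.sin NUMF.l) - (Real.log 2 - Real.log (1 - NUMF.r)) : ℝ) : ℂ) := by
    rw [hD]
    simp only
    unfold lgA NUMF.vc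
    have e1 : (NUP1.l : ℂ) + I * 0 + 3 * NUMF.l = ((4 * NUMF.l : ℝ) : ℂ) := by
      rw [hl1]; push_cast; ring
    have e2 : (NUP1.l : ℂ) + I * 0 = ((NUMF.l : ℝ) : ℂ) := by rw [hl1]; ring
    have e3 : 2 * (NUMF.l : ℂ) - (NUP1.l + I * 0) = ((NUMF.l : ℝ) : ℂ) := by rw [hl1]; ring
    rw [e1, e3, e2, ls_real (by positivity) (by linarith), ls_real hl (by linarith)]
    have e4 : cosh (2 * (0 : ℂ)) + 1 = ((2 : ℝ) : ℂ) := by simp; norm_num
    have e5 : cosh (2 * (0 : ℂ)) - NUMF.r = ((1 - NUMF.r : ℝ) : ℂ) := by simp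
    rw [e4, e5, ← Complex.ofReal_log (by norm_num), ← Complex.ofReal_log (by linarith)]
    push_cast
    ring
  have h1 := hexp 0 hz0
  rw [h0, ← Complex.ofReal_exp] at h1
  have h2 : Real.exp (2 * Real.log (Real.sin (4 * NUMF.l)) - Real.log (Real.sin NUMF.l) -
      Real.log (Real.sin NUMF.l) - (Real.log 2 - Real.log (1 - NUMF.r))) = 1 := by
    exact_mod_cast h1
  rw [Real.exp_eq_one_iff] at h2
  rw [h2] at h0
  rw [h0] at hc
  have : D z = 0 := by rw [hc]; simp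
  exact sub_eq_zero.1 this

/-- **the row factor on the curve**, complex number of rows -/
theorem RNB_line (s : ℂ) (tc : ℝ) {z : ℂ} (hz : |z.im| < NUMF.l) :
    RNB s tc (NUP1.l + I * z) = 2 * Real.cos NUP1.l * Real.exp ((s * NUMF.vc z).re) := by
  have h : 0 < ((NUP1.l : ℂ) + I * z).re := by
    rw [reA]
    rw [abs_lt] at hz
    have h3 : NUP1.l = NUMF.l := rfl
    rw [h3]
    linarith [hz.2]
  unfold RNB lgu
  rw [if_pos h, lgA_vc hz, Complex.norm_exp]

/-- the row factor on the curve, real number of rows -/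
theorem RNr_line (σ : ℝ) {z : ℂ} (hz : |z.im| < NUMF.l) :
    RNr σ (NUP1.l + I * z) = 2 * Real.cos NUP1.l * Real.exp (σ * (NUMF.vc z).re) := by
  obtain ⟨s1, s2⟩ := NUMF.slit_v hz
  have n1 : cosh (2 * z) + 1 ≠ 0 := Complex.slitPlane_ne_zero s1
  have n2 : cosh (2 * z) - NUMF.r ≠ 0 := Complex.slitPlane_ne_zero s2
  have p1 := norm_pos_iff.2 n1
  have p2 := norm_pos_iff.2 n2
  have h2 : ‖(2 : ℂ)‖ = 2 := by simp
  have e : ‖Complex.sin (NUP1.l + I * z + 3 * NUP1.l)‖ ^ 2 /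
      (‖Complex.sin (NUP1.l + I * z)‖ * ‖Complex.sin (NUP1.l + I * z - 2 * NUP1.l)‖) =
      Real.exp (NUMF.vc z).re := by
    unfold NUMF.vc
    rw [Complex.sub_re, Complex.log_re, Complex.log_re, Real.exp_sub, Real.exp_log p1,
      Real.exp_log p2, ← norm_mul, sin_sin, sin3, ← norm_pow, cosh_sq', norm_neg, norm_div,
      norm_div, h2]
    field_simp
  unfold RNr
  have e3 : (3 * (NUMF.l : ℂ)) = 3 * NUP1.l := rfl
  rw [show (Complex.sin (NUP1.l + I * z + 3 * NUP1.l)) = Complex.sin (NUP1.l + I * z + 3 * NUP1.l) from rfl,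
    e, ← Real.exp_mul, mul_comm (NUMF.vc z).re σ]

/-! ### the gas -/

/-- one body factor on the curve with row exponent `F`, without the activity -/
def aG (F : ℝ → ℝ) (M : ℕ) (β : ℝ) (P : Par) (η : ℝ → ℝ) {r : ℕ} (O : Fin r → Xo) (s : Bool)
    (t : ℝ) : ℝ :=
  Real.exp (F t) * ‖ph M β (NUO.pA η t)‖ * ∏ i, potN P O i s (NUO.pA η t)

theorem aG_nonneg (F : ℝ → ℝ) (M : ℕ) (β : ℝ) (P : Par) (η : ℝ → ℝ) {r : ℕ} (O : Fin r → Xo)
    (s : Bool) (t : ℝ) : 0 ≤ aG F M β P η O s t := by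
  unfold aG
  have h : 0 ≤ ∏ i, potN P O i s (NUO.pA η t) := Finset.prod_nonneg fun i _ => potN_nonneg _ _ _ _ _
  positivity

theorem qAg_eq {R : ℂ → ℝ} {F : ℝ → ℝ} {M : ℕ} {β : ℝ} {P : Par} {η : ℝ → ℝ}
    (hR : ∀ t, R (NUO.pA η t) = 2 * Real.cos NUP1.l * Real.exp (F t)) {r : ℕ}
    (O : Fin r → Xo) (s : Bool) (t : ℝ) :
    qAg R M β P η O s t = NUMFC.act * aG F M β P η O s t := by
  unfold qAg aG
  rw [hR, ← act_cos]
  ring

/-- **the gas on the curve, activities separated** -/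
theorem Z1g_eq {R : ℂ → ℝ} {F : ℝ → ℝ} {M : ℕ} {β : ℝ} {P : Par} {η η' : ℝ → ℝ}
    (hR : ∀ t, R (NUO.pA η t) = 2 * Real.cos NUP1.l * Real.exp (F t)) {r : ℕ}
    (O : Fin r → Xo) (a b : ℕ) :
    Z1g R M β P η η' O a b = ENNReal.ofReal (NUMFC.act ^ (a + b)) *
      (((a.factorial : ℝ≥0∞) * b.factorial)⁻¹ * ∫⁻ x : (Fin a → ℝ) × (Fin b → ℝ),
        ENNReal.ofReal (WO (dA η) (dA η') (dA η) (dA η') (aG F M β P η O true)
          (aG F M β P η O false) x.1 x.2)) := by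
  have e1 : (qAg R M β P η O true) = fun t => NUMFC.act * aG F M β P η O true t :=
    funext fun t => qAg_eq hR O true t
  have e2 : (qAg R M β P η O false) = fun t => NUMFC.act * aG F M β P η O false t :=
    funext fun t => qAg_eq hR O false t
  have hact : 0 ≤ NUMFC.act ^ (a + b) := pow_nonneg NUMFC.act_pos.le _
  unfold Z1g
  rw [e1, e2]
  simp_rw [WO_smul, ENNReal.ofReal_mul hact]
  rw [lintegral_const_mul' _ _ ENNReal.ofReal_ne_top]
  ring

/-- **the final form**: a bound of the gas without activities gives the bound of `Z1g` -/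
theorem Z1g_le {R : ℂ → ℝ} {F : ℝ → ℝ} {M : ℕ} {β : ℝ} {P : Par} {η η' : ℝ → ℝ}
    (hR : ∀ t, R (NUO.pA η t) = 2 * Real.cos NUP1.l * Real.exp (F t)) {r : ℕ}
    (O : Fin r → Xo) (a b : ℕ) {x X : ℝ}
    (h : ∫⁻ y : (Fin a → ℝ) × (Fin b → ℝ), ENNReal.ofReal (WO (dA η) (dA η') (dA η) (dA η')
        (aG F M β P η O true) (aG F M β P η O false) y.1 y.2) ≤
      ENNReal.ofReal ((a.factorial : ℝ) * b.factorial * Real.exp (NUMFC.MFs x a b + X))) :
    Z1g R M β P η η' O a b ≤ ENNReal.ofReal (Real.exp (NUMFC.MF x + X)) := by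
  rw [Z1g_eq hR]
  have hf : (0 : ℝ) < (a.factorial : ℝ) * b.factorial := by positivity
  have e1 : ((a.factorial : ℝ≥0∞) * b.factorial)⁻¹ =
      ENNReal.ofReal (((a.factorial : ℝ) * b.factorial)⁻¹) := by
    rw [ENNReal.ofReal_inv_of_pos hf, ENNReal.ofReal_mul (by positivity), ENNReal.ofReal_natCast,
      ENNReal.ofReal_natCast]
  calc _ ≤ ENNReal.ofReal (NUMFC.act ^ (a + b)) * (((a.factorial : ℝ≥0∞) * b.factorial)⁻¹ *
        ENNReal.ofReal ((a.factorial : ℝ) * b.factorial * Real.exp (NUMFC.MFs x a b + X))) := by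
        gcongr
    _ = ENNReal.ofReal (Real.exp (NUMFC.MF x + X)) := by
        rw [e1, ← ENNReal.ofReal_mul (by positivity),
          ← ENNReal.ofReal_mul (pow_nonneg NUMFC.act_pos.le _)]
        congr 1
        rw [Real.exp_add, Real.exp_add, ← NUMFC.act_MFs x a b]
        field_simp

/-- monotonicity of `Z1g` in the row factor on the curve -/
theorem Z1g_mono {R R' : ℂ → ℝ} {M : ℕ} {β : ℝ} {P : Par} {η η' : ℝ → ℝ}
    (h0 : ∀ t, 0 ≤ R (NUO.pA η t)) (h1 : ∀ t, R (NUO.pA η t) ≤ R' (NUO.pA η t)) {r : ℕ}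
    (O : Fin r → Xo) (a b : ℕ) : Z1g R M β P η η' O a b ≤ Z1g R' M β P η η' O a b := by
  have hp : ∀ (s : Bool) (t : ℝ), 0 ≤ ∏ i, potN P O i s (NUO.pA η t) := fun s t =>
    Finset.prod_nonneg fun i _ => potN_nonneg _ _ _ _ _
  have hpi := Real.pi_pos
  have hq : ∀ s t, 0 ≤ qAg R M β P η O s t := by
    intro s t
    unfold qAg
    have := h0 t
    have := hp s t
    positivity
  have hq' : ∀ s t, qAg R M β P η O s t ≤ qAg R' M β P η O s t := by
    intro s t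
    unfold qAg
    have := h1 t
    have := hp s t
    gcongr
  unfold Z1g
  refine mul_le_mul_right (lintegral_mono fun x => ?_) _
  exact ENNReal.ofReal_le_ofReal (WO_mono _ _ _ _ (hq true) (hq false) (hq' true) (hq' false) _ _)

/-! ### instances -/

/-- row exponent of a complex number `s` of pairs of rows on the curve -/
def fB (s : ℂ) (η : ℝ → ℝ) (t : ℝ) : ℝ := (s * NUMF.vc ((t : ℂ) + dA η t)).re

theorem RNB_pA (s : ℂ) (tc : ℝ) {η : ℝ → ℝ} (h0 : ∀ t, |η t| < NUMF.l) (t : ℝ) :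
    RNB s tc (NUO.pA η t) = 2 * Real.cos NUP1.l * Real.exp (fB s η t) := by
  unfold NUO.pA fB dA
  rw [line_pt, RNB_line s tc (by simpa using h0 t)]

theorem Z1B_eq (s : ℂ) (tc : ℝ) {M : ℕ} {β : ℝ} {P : Par} {η η' : ℝ → ℝ}
    (h0 : ∀ t, |η t| < NUMF.l) {r : ℕ} (O : Fin r → Xo) (a b : ℕ) :
    Z1g (RNB s tc) M β P η η' O a b = ENNReal.ofReal (NUMFC.act ^ (a + b)) *
      (((a.factorial : ℝ≥0∞) * b.factorial)⁻¹ * ∫⁻ x : (Fin a → ℝ) × (Fin b → ℝ),
        ENNReal.ofReal (WO (dA η) (dA η') (dA η) (dA η') (aG (fB s η) M β P η O true)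
          (aG (fB s η) M β P η O false) x.1 x.2)) :=
  Z1g_eq (RNB_pA s tc h0) O a b

theorem Z1B_le (s : ℂ) (tc : ℝ) {M : ℕ} {β : ℝ} {P : Par} {η η' : ℝ → ℝ}
    (h0 : ∀ t, |η t| < NUMF.l) {r : ℕ} (O : Fin r → Xo) (a b : ℕ) {X : ℝ}
    (h : ∫⁻ y : (Fin a → ℝ) × (Fin b → ℝ), ENNReal.ofReal (WO (dA η) (dA η') (dA η) (dA η')
        (aG (fB s η) M β P η O true) (aG (fB s η) M β P η O false) y.1 y.2) ≤
      ENNReal.ofReal ((a.factorial : ℝ) * b.factorial * Real.exp (NUMFC.MFs s.re a b + X))) :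
    Z1g (RNB s tc) M β P η η' O a b ≤ ENNReal.ofReal (Real.exp (NUMFC.MF s.re + X)) :=
  Z1g_le (RNB_pA s tc h0) O a b h

/-- the curve of `CurB` stays in the strip -/
theorem CurB.abs_lt {ep : ℝ} {η η' : ℝ → ℝ} (h : CurB ep η η') (h1 : ep ≤ 1) (t : ℝ) :
    |η t| < NUMF.l := by
  have h2 := h.h1 t
  have h3 := l_pos'
  have h4 : NUP1.l = NUMF.l := rfl
  rw [h4] at h2
  nlinarith

end NUBR

end
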