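import Pool.Agent.NUGC.DefC
import Pool.Agent.NUSea.H0.DatC
import Pool.Agent.NUSea.H0.H0
import Pool.Agent.NUBR.Z1B

/-!
# The positive gas of TARGET-C without activities

`B : OB` one body data with `B.R a (pA η t) = 2 cos l · G a t` on the curve (row factor, base factor
and spectators of the species `a`).

* `aC`: the one body factor without the activity, `qAc_eq`, `Z1c_eq`, `Z1c_le`;
* `Z1c_mono`: monotonicity in the one body factors; `WO_smul2`: constants of the two species;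
* `Z1c_le_W0`: from the bound of `∫ W0` of the sea to the bound of `Z1c`, when the one body factors
  are dominated up to constants `exp (cX)`, `exp (cY)`;
* `Z1c_le_inp`: the same for the data `NUSea.H0.datO I P O`, one body factors `aFe`, with tilt;
  `Z1c_le_obC`: for the one body data `obC κ M β g`.
-/

set_option autoImplicit false
set_option linter.unusedSectionVars false

noncomputable section

open MeasureTheory Finset
open scoped ENNReal

namespace NUBR

open NUO NU42 NUGC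

/-! ### the gas of `DefC` -/

/-- one body factor on the curve with row factor `G` and cutoff `φ`, without the activity -/
def aC (G : ℝ → ℝ) (φ : ℂ → ℂ) (P : Par) (η : ℝ → ℝ) {r : ℕ} (O : Fin r → Xo) (s : Bool)
    (t : ℝ) : ℝ :=
  G t * ‖φ (NUO.pA η t)‖ * ∏ i, potN P O i s (NUO.pA η t)

theorem prod_potN_nonneg (P : Par) {r : ℕ} (O : Fin r → Xo) (s : Bool) (u : ℂ) :
    0 ≤ ∏ i, potN P O i s u := Finset.prod_nonneg fun _ _ => potN_nonneg _ _ _ _ _

theorem aC_nonneg {G : ℝ → ℝ} (hG : ∀ t, 0 ≤ G t) (φ : ℂ → ℂ) (P : Par) (η : ℝ → ℝ) {r : ℕ}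
    (O : Fin r → Xo) (s : Bool) (t : ℝ) : 0 ≤ aC G φ P η O s t := by
  unfold aC
  have h := prod_potN_nonneg P O s (NUO.pA η t)
  have := hG t
  positivity

/-- the case of TARGET-B -/
theorem aG_aC (F : ℝ → ℝ) (M : ℕ) (β : ℝ) (P : Par) (η : ℝ → ℝ) {r : ℕ} (O : Fin r → Xo)
    (s : Bool) : aG F M β P η O s = aC (fun t => Real.exp (F t)) (ph M β) P η O s := rfl

theorem qAc_nonneg {B : OB} (hB : B.Nn) (P : Par) (η : ℝ → ℝ) {r : ℕ} (O : Fin r → Xo) (a : Bool)
    (t : ℝ) : 0 ≤ qAc B P η O a t := by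
  have h1 := hB a (NUO.pA η t)
  have h2 := prod_potN_nonneg P O a (NUO.pA η t)
  have := Real.pi_pos
  unfold qAc
  positivity

theorem qAc_eq {B : OB} {G : ℝ → ℝ} {P : Par} {η : ℝ → ℝ} {a : Bool} {t : ℝ}
    (hR : B.R a (NUO.pA η t) = 2 * Real.cos NUP1.l * G t) {r : ℕ} (O : Fin r → Xo) :
    qAc B P η O a t = NUMFC.act * aC G B.φ P η O a t := by
  unfold qAc aC
  rw [hR, ← act_cos]
  ring

/-- **the gas on the curve, activities separated** -/
theorem Z1c_eq {B : OB} {G : Bool → ℝ → ℝ} {P : Par} {η η' : ℝ → ℝ}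
    (hR : ∀ a t, B.R a (NUO.pA η t) = 2 * Real.cos NUP1.l * G a t) {r : ℕ}
    (O : Fin r → Xo) (p n : ℕ) :
    Z1c B P η η' O p n = ENNReal.ofReal (NUMFC.act ^ (p + n)) *
      (((p.factorial : ℝ≥0∞) * n.factorial)⁻¹ * ∫⁻ x : (Fin p → ℝ) × (Fin n → ℝ),
        ENNReal.ofReal (WO (dA η) (dA η') (dA η) (dA η') (aC (G true) B.φ P η O true)
          (aC (G false) B.φ P η O false) x.1 x.2)) := by
  have e1 : (qAc B P η O true) = fun t => NUMFC.act * aC (G true) B.φ P η O true t :=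
    funext fun t => qAc_eq (hR true t) O
  have e2 : (qAc B P η O false) = fun t => NUMFC.act * aC (G false) B.φ P η O false t :=
    funext fun t => qAc_eq (hR false t) O
  have hact : 0 ≤ NUMFC.act ^ (p + n) := pow_nonneg NUMFC.act_pos.le _
  unfold Z1c
  rw [e1, e2]
  simp_rw [WO_smul, ENNReal.ofReal_mul hact]
  rw [lintegral_const_mul' _ _ ENNReal.ofReal_ne_top]
  ring

/-- the combinatorial factor -/
theorem fac_inv (p n : ℕ) : ((p.factorial : ℝ≥0∞) * n.factorial)⁻¹ =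
    ENNReal.ofReal (((p.factorial : ℝ) * n.factorial)⁻¹) := by
  have hf : (0 : ℝ) < (p.factorial : ℝ) * n.factorial := by positivity
  rw [ENNReal.ofReal_inv_of_pos hf, ENNReal.ofReal_mul (by positivity), ENNReal.ofReal_natCast,
    ENNReal.ofReal_natCast]

/-- constants -/
theorem fac_cancel (p n : ℕ) {c x y : ℝ} (hc : 0 ≤ c) (h : c * Real.exp x = Real.exp y) :
    ENNReal.ofReal c * (((p.factorial : ℝ≥0∞) * n.factorial)⁻¹ *
      ENNReal.ofReal ((p.factorial : ℝ) * n.factorial * Real.exp x)) =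
      ENNReal.ofReal (Real.exp y) := by
  have hf : (0 : ℝ) < (p.factorial : ℝ) * n.factorial := by positivity
  rw [fac_inv, ← ENNReal.ofReal_mul (by positivity), ← ENNReal.ofReal_mul hc, ← h]
  congr 1
  field_simp

/-- **the final form**: a bound of the gas without activities gives the bound of `Z1c`; `μ` is the
mean field value of the sea -/
theorem Z1c_le {B : OB} {G : Bool → ℝ → ℝ} {P : Par} {η η' : ℝ → ℝ}
    (hR : ∀ a t, B.R a (NUO.pA η t) = 2 * Real.cos NUP1.l * G a t) {r : ℕ}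
    (O : Fin r → Xo) (p n : ℕ) {μ E : ℝ}
    (h : ∫⁻ y : (Fin p → ℝ) × (Fin n → ℝ), ENNReal.ofReal (WO (dA η) (dA η') (dA η) (dA η')
        (aC (G true) B.φ P η O true) (aC (G false) B.φ P η O false) y.1 y.2) ≤
      ENNReal.ofReal ((p.factorial : ℝ) * n.factorial *
        Real.exp (μ - ((p : ℝ) + n) * Real.log NUMFC.act + E))) :
    Z1c B P η η' O p n ≤ ENNReal.ofReal (Real.exp (μ + E)) := by
  rw [Z1c_eq hR]
  have e1 : NUMFC.act ^ (p + n) * Real.exp (μ - ((p : ℝ) + n) * Real.log NUMFC.act + E) =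
      Real.exp (μ + E) := by
    rw [← Real.exp_log (pow_pos NUMFC.act_pos (p + n)), ← Real.exp_add, Real.log_pow]
    congr 1
    push_cast
    ring
  calc _ ≤ ENNReal.ofReal (NUMFC.act ^ (p + n)) * (((p.factorial : ℝ≥0∞) * n.factorial)⁻¹ *
        ENNReal.ofReal ((p.factorial : ℝ) * n.factorial *
          Real.exp (μ - ((p : ℝ) + n) * Real.log NUMFC.act + E))) := by gcongr
    _ = _ := fac_cancel p n (pow_nonneg NUMFC.act_pos.le _) e1

/-- monotonicity of `Z1c` in the one body factors on the curve -/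
theorem Z1c_mono {B B' : OB} {P : Par} {η η' : ℝ → ℝ} {r : ℕ} {O : Fin r → Xo}
    (h0 : ∀ a t, 0 ≤ qAc B P η O a t) (h1 : ∀ a t, qAc B P η O a t ≤ qAc B' P η O a t)
    (p n : ℕ) : Z1c B P η η' O p n ≤ Z1c B' P η η' O p n := by
  unfold Z1c
  refine mul_le_mul_right (lintegral_mono fun x => ?_) _
  exact ENNReal.ofReal_le_ofReal (WO_mono _ _ _ _ (h0 true) (h0 false) (h1 true) (h1 false) _ _)

/-- constants of the two species -/
theorem WO_smul2 {p n : ℕ} (DX DX1 DY DY1 : ℝ → ℂ) (c c' : ℝ) (a a' : ℝ → ℝ) (t : Fin p → ℝ)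
    (t' : Fin n → ℝ) :
    WO DX DX1 DY DY1 (fun x => c * a x) (fun x => c' * a' x) t t' =
      c ^ p * c' ^ n * WO DX DX1 DY DY1 a a' t t' := by
  unfold WO
  rw [ob_smul, ob_smul]
  ring

/-! ### the gas of the sea -/

/-- **from `W0` to `Z1c`**: `X` the data of the sea, one body factors dominated up to constants -/
theorem Z1c_le_W0 [NUSea.Sea] {B : OB} (hB : B.Nn) {P : Par} {η η' : ℝ → ℝ} {r : ℕ}
    {O : Fin r → Xo} {p n : ℕ} {X : NUSea.H0.Dat} {aX aY cf : ℝ → ℝ} {cX cY s E : ℝ}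
    (hD : ∀ a, X.D a = dA η) (hD1 : ∀ a, X.D1 a = dA η')
    (hX : ∀ t, qAc B P η O true t ≤ NUMFC.act * Real.exp cX * (aX t * cf t))
    (hY : ∀ t, qAc B P η O false t ≤ NUMFC.act * Real.exp cY * (aY t * cf t))
    (h : ∫⁻ x, ENNReal.ofReal (NUSea.H0.W0 X p n aX aY cf x) ≤
      ENNReal.ofReal ((p.factorial : ℝ) * n.factorial * Real.exp (NUSea.MFs s p n + E))) :
    Z1c B P η η' O p n ≤ ENNReal.ofReal (Real.exp (NUSea.MF s + E + cX * p + cY * n)) := by
  have hact := NUMFC.act_pos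
  have hc : 0 ≤ (NUMFC.act * Real.exp cX) ^ p * (NUMFC.act * Real.exp cY) ^ n := by positivity
  have h1 : ∀ x : (Fin p → ℝ) × (Fin n → ℝ),
      ENNReal.ofReal (WO (dA η) (dA η') (dA η) (dA η') (qAc B P η O true) (qAc B P η O false)
        x.1 x.2) ≤ ENNReal.ofReal ((NUMFC.act * Real.exp cX) ^ p * (NUMFC.act * Real.exp cY) ^ n) *
        ENNReal.ofReal (NUSea.H0.W0 X p n aX aY cf x) := by
    intro x
    rw [← ENNReal.ofReal_mul hc]
    refine ENNReal.ofReal_le_ofReal ?_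
    unfold NUSea.H0.W0
    rw [hD, hD, hD1, hD1, ← WO_smul2]
    exact WO_mono _ _ _ _ (fun t => qAc_nonneg hB P η O true t)
      (fun t => qAc_nonneg hB P η O false t) hX hY _ _
  have e1 : (NUMFC.act * Real.exp cX) ^ p * (NUMFC.act * Real.exp cY) ^ n *
      Real.exp (NUSea.MFs s p n + E) = Real.exp (NUSea.MF s + E + cX * p + cY * n) := by
    have e2 : NUMFC.act ^ (p + n) * Real.exp (NUSea.MFs s p n) = Real.exp (NUSea.MF s) :=
      NUSea.act_MFs s p n
    rw [show NUSea.MF s + E + cX * p + cY * n = NUSea.MF s + (E + (p * cX + n * cY)) by ring,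
      Real.exp_add, Real.exp_add, Real.exp_add, Real.exp_add, Real.exp_nat_mul, Real.exp_nat_mul,
      ← e2]
    ring
  unfold Z1c
  calc ((p.factorial : ℝ≥0∞) * n.factorial)⁻¹ * ∫⁻ x : (Fin p → ℝ) × (Fin n → ℝ),
        ENNReal.ofReal (WO (dA η) (dA η') (dA η) (dA η') (qAc B P η O true) (qAc B P η O false)
          x.1 x.2) ≤
      ((p.factorial : ℝ≥0∞) * n.factorial)⁻¹ * (ENNReal.ofReal
        ((NUMFC.act * Real.exp cX) ^ p * (NUMFC.act * Real.exp cY) ^ n) *
        ENNReal.ofReal ((p.factorial : ℝ) * n.factorial * Real.exp (NUSea.MFs s p n + E))) := by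
        refine mul_le_mul_right ?_ _
        refine (lintegral_mono h1).trans ?_
        rw [lintegral_const_mul' _ _ ENNReal.ofReal_ne_top]
        exact mul_le_mul_right h _
    _ = ENNReal.ofReal ((NUMFC.act * Real.exp cX) ^ p * (NUMFC.act * Real.exp cY) ^ n) *
        (((p.factorial : ℝ≥0∞) * n.factorial)⁻¹ *
          ENNReal.ofReal ((p.factorial : ℝ) * n.factorial * Real.exp (NUSea.MFs s p n + E))) := by
        ring
    _ = _ := fac_cancel p n hc e1

/-- one body factor of the data with a real exponent `e` -/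
def aFe [NUSea.Sea] (X : NUSea.H0.Dat) (e : Bool → ℝ → ℝ) (a : Bool) (t : ℝ) : ℝ :=
  Real.exp (X.s * (NUSea.vc (X.ζ a t)).re + (X.F a (X.ζ a t)).re + e a t)

/-- the point of the curve in the variable of the sea -/
theorem pA_zt (η : ℝ → ℝ) (t : ℝ) :
    NUO.pA η t = NUP1.l + Complex.I * NUAct.zt (NUKer.iD η) t := by
  unfold NUO.pA
  rw [line_pt]
  rfl

/-- the one body factor of a configuration on the curve -/
theorem qAc_le_inp [NUSea.Sea] {B : OB} {I : NUSea.H0.Inp} {P : Par} {δ : ℝ} (hP : PG δ P)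
    (hη : ∀ t, |I.η t| < δ * NUMF.l) {r : ℕ} (O : Fin r → Xo) {a : Bool} {t κ e cf : ℝ}
    (h : B.R a (NUO.pA I.η t) * ‖B.φ (NUO.pA I.η t)‖ ≤ 2 * Real.cos NUP1.l * Real.exp κ *
      (Real.exp (I.s * (NUSea.vc (NUAct.zt (NUKer.iD I.η) t)).re +
        (I.A a (NUAct.zt (NUKer.iD I.η) t)).re + e) * cf)) :
    qAc B P I.η O a t ≤ NUMFC.act * Real.exp κ *
      (Real.exp (I.s * (NUSea.vc (NUAct.zt (NUKer.iD I.η) t)).re +
        (NUSea.H0.FA I P O a (NUAct.zt (NUKer.iD I.η) t)).re + e) * cf) := by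
  have h1 : ∏ i, potN P O i a (NUO.pA I.η t) =
      Real.exp (FO P O a (NUAct.zt (NUKer.iD I.η) t)).re := prod_potN O hP a (hη t)
  have hpi := Real.pi_pos
  set w := NUAct.zt (NUKer.iD I.η) t
  have h2 : (NUSea.H0.FA I P O a w).re = (FO P O a w).re + (I.A a w).re := by
    unfold NUSea.H0.FA
    rw [Complex.add_re]
  unfold qAc
  rw [h1, h2, ← act_cos]
  calc (2 * Real.pi)⁻¹ * (B.R a (NUO.pA I.η t) * ‖B.φ (NUO.pA I.η t)‖) *
        Real.exp (FO P O a w).re ≤ (2 * Real.pi)⁻¹ * (2 * Real.cos NUP1.l * Real.exp κ *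
          (Real.exp (I.s * (NUSea.vc w).re + (I.A a w).re + e) * cf)) *
        Real.exp (FO P O a w).re := by gcongr
    _ = _ := by
        rw [show I.s * (NUSea.vc w).re + ((FO P O a w).re + (I.A a w).re) + e =
          (I.s * (NUSea.vc w).re + (I.A a w).re + e) + (FO P O a w).re by ring, Real.exp_add
            (I.s * (NUSea.vc w).re + (I.A a w).re + e)]
        ring

/-- **from `W0` of the data of a configuration to `Z1c`**: `cc` the constants of the two species
(`cc = 0` for near groups), `e` a real exponent, `c` the tilt per quantum -/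
theorem Z1c_le_inp [NUSea.Sea] {B : OB} (hB : B.Nn) {I : NUSea.H0.Inp} {P : Par} {δ : ℝ}
    (hP : PG δ P) (hη : ∀ t, |I.η t| < δ * NUMF.l) {r : ℕ} {O : Fin r → Xo} {p n : ℕ}
    {cc : Bool → ℝ} {e : Bool → ℝ → ℝ} {cf : ℝ → ℝ} {c E : ℝ}
    (h1 : ∀ a t, B.R a (NUO.pA I.η t) * ‖B.φ (NUO.pA I.η t)‖ ≤
      2 * Real.cos NUP1.l * Real.exp (cc a) *
      (Real.exp (I.s * (NUSea.vc (NUAct.zt (NUKer.iD I.η) t)).re +
        (I.A a (NUAct.zt (NUKer.iD I.η) t)).re + e a t) * cf t))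
    (h : ∫⁻ x, ENNReal.ofReal (NUSea.H0.W0 (NUSea.H0.datO I P O) p n
        (aFe (NUSea.H0.datO I P O) (fun a t => e a t + c) true)
        (aFe (NUSea.H0.datO I P O) (fun a t => e a t + c) false) cf x) ≤
      ENNReal.ofReal ((p.factorial : ℝ) * n.factorial * Real.exp (NUSea.MFs I.s p n + E))) :
    ENNReal.ofReal (Real.exp (c * ((p : ℝ) + n))) * Z1c B P I.η I.η1 O p n ≤
      ENNReal.ofReal (Real.exp (NUSea.MF I.s + E + cc true * p + cc false * n)) := by
  have key : ∀ a t, qAc B P I.η O a t ≤ NUMFC.act * Real.exp (cc a - c) *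
      (aFe (NUSea.H0.datO I P O) (fun a t => e a t + c) a t * cf t) := by
    intro a t
    refine qAc_le_inp (κ := cc a - c) (e := e a t + c) (cf := cf t) hP hη O ?_
    refine (h1 a t).trans (le_of_eq ?_)
    set w := NUAct.zt (NUKer.iD I.η) t
    rw [show I.s * (NUSea.vc w).re + (I.A a w).re + (e a t + c) =
      (I.s * (NUSea.vc w).re + (I.A a w).re + e a t) + c by ring, Real.exp_add
        (I.s * (NUSea.vc w).re + (I.A a w).re + e a t) c,
      show cc a = (cc a - c) + c by ring, Real.exp_add (cc a - c) c,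
      show cc a - c + c - c = cc a - c by ring]
    ring
  have h2 := Z1c_le_W0 (cX := cc true - c) (cY := cc false - c) hB
    (fun a => NUSea.H0.datO_D I P O a) (fun a => NUSea.H0.datO_D1 I P O a) (key true) (key false) h
  calc ENNReal.ofReal (Real.exp (c * ((p : ℝ) + n))) * Z1c B P I.η I.η1 O p n ≤
      ENNReal.ofReal (Real.exp (c * ((p : ℝ) + n))) * ENNReal.ofReal (Real.exp (NUSea.MF I.s + E +
        (cc true - c) * p + (cc false - c) * n)) := by gcongr
    _ = _ := by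
        rw [← ENNReal.ofReal_mul (Real.exp_pos _).le, ← Real.exp_add]
        congr 2
        ring

/-- **the case of the data `obC`**: rows of the sea, spectator factors `g` (base factor included) -/
theorem Z1c_le_obC [NUSea.Sea] {κ β : ℝ} {M : ℕ} {g : Bool → ℂ → ℝ} (hg : ∀ a u, 0 ≤ g a u)
    {I : NUSea.H0.Inp} {P : Par} {δ : ℝ} (hP : PG δ P) (hη : ∀ t, |I.η t| < δ * NUMF.l) {r : ℕ}
    {O : Fin r → Xo} {p n : ℕ} {cc : Bool → ℝ} {e : Bool → ℝ → ℝ} {cf : ℝ → ℝ} {c E : ℝ}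
    (hrow : ∀ t, Rrow κ (NUO.pA I.η t) = 2 * Real.cos NUP1.l *
      Real.exp (I.s * (NUSea.vc (NUAct.zt (NUKer.iD I.η) t)).re))
    (h1 : ∀ a t, g a (NUO.pA I.η t) * ‖phP M β (NUO.pA I.η t)‖ ≤ Real.exp (cc a) *
      (Real.exp ((I.A a (NUAct.zt (NUKer.iD I.η) t)).re + e a t) * cf t))
    (h : ∫⁻ x, ENNReal.ofReal (NUSea.H0.W0 (NUSea.H0.datO I P O) p n
        (aFe (NUSea.H0.datO I P O) (fun a t => e a t + c) true)
        (aFe (NUSea.H0.datO I P O) (fun a t => e a t + c) false) cf x) ≤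
      ENNReal.ofReal ((p.factorial : ℝ) * n.factorial * Real.exp (NUSea.MFs I.s p n + E))) :
    ENNReal.ofReal (Real.exp (c * ((p : ℝ) + n))) * Z1c (obC κ M β g) P I.η I.η1 O p n ≤
      ENNReal.ofReal (Real.exp (NUSea.MF I.s + E + cc true * p + cc false * n)) := by
  refine Z1c_le_inp (obC_nn hg) hP hη (cc := cc) (e := e) (fun a t => ?_) h
  have hcos := cosl_nonneg
  show Rrow κ (NUO.pA I.η t) * g a (NUO.pA I.η t) * ‖phP M β (NUO.pA I.η t)‖ ≤ _
  rw [hrow]
  set w := NUAct.zt (NUKer.iD I.η) t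
  calc 2 * Real.cos NUP1.l * Real.exp (I.s * (NUSea.vc w).re) * g a (NUO.pA I.η t) *
        ‖phP M β (NUO.pA I.η t)‖ =
      2 * Real.cos NUP1.l * Real.exp (I.s * (NUSea.vc w).re) *
        (g a (NUO.pA I.η t) * ‖phP M β (NUO.pA I.η t)‖) := by ring
    _ ≤ 2 * Real.cos NUP1.l * Real.exp (I.s * (NUSea.vc w).re) *
        (Real.exp (cc a) * (Real.exp ((I.A a w).re + e a t) * cf t)) :=
        mul_le_mul_of_nonneg_left (h1 a t) (by positivity)
    _ = _ := by
        rw [show I.s * (NUSea.vc w).re + (I.A a w).re + e a t =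
          I.s * (NUSea.vc w).re + ((I.A a w).re + e a t) by ring, Real.exp_add
            (I.s * (NUSea.vc w).re)]
        ring

end NUBR

end
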